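import Mathlib.Topology.Sheaves.Presheaf
import Mathlib.Algebra.Order.Archimedean.Real.Hom
import Mathlib.Algebra.Order.Star.Real
import Mathlib.Algebra.Ring.IsFormallyReal
import Mathlib.RingTheory.Valuation.LocalSubring
import Mathlib.Analysis.InnerProductSpace.Calculus
import Mathlib.Order.Filter.FilterProduct
import Mathlib.RingTheory.PiTensorProduct
import Mathlib.RingTheory.SimpleRing.Principal
import Mathlib.RingTheory.Henselian
import Mathlib.RingTheory.RegularLocalRing.Defs

-- ======== part 0: formerly Pool.Agent.MP_765488_mp.Valuation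
section MrgPart0

/-!
Valuation-theoretic core of the finiteness of equilibria of point charges.

Let `K` be a field over the reals holding a solution `(x, s)` of the algebraic equilibrium system
`s i ^ 2 * |x - a i|^2 = 1`, `∑ q i * s i ^ (e + 2) * (x - a i) = 0`.
Then `Λ = ∑ q i * s i ^ (e + 2)` lies in every valuation ring of `K` containing the reals, and is a
nonunit of it as soon as one coordinate of `x` is outside the ring.
-/

set_option autoImplicit false

namespace Pool.Agent.MP_765488_mp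

open Finset

variable {K : Type*} [Field K] [Algebra ℝ K]

omit [Algebra ℝ K] in
theorem mul_nonunit (V : ValuationSubring K) {x y : K} (hx : x ∈ V) (hy : y ∈ V.nonunits) :
    x * y ∈ V.nonunits := by
  rw [ValuationSubring.mem_nonunits_iff] at hy ⊢
  rw [← ValuationSubring.valuation_le_one_iff] at hx
  rw [map_mul]
  calc V.valuation x * V.valuation y ≤ 1 * V.valuation y := by gcongr
    _ < 1 := by simpa using hy

theorem real_nonunit (V : ValuationSubring K) (hV : ∀ r : ℝ, algebraMap ℝ K r ∈ V) {r : ℝ}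
    (hr : algebraMap ℝ K r ∈ V.nonunits) : r = 0 := by
  rcases (V.mem_nonunits_iff_or).1 hr with h | h
  · exact (map_eq_zero_iff _ (algebraMap ℝ K).injective).1 h
  · exact absurd (by rw [← map_inv₀]; exact hV _) h

omit [Algebra ℝ K] in
theorem nonunit_of_mul_mem (V : ValuationSubring K) {L z : K} (h : L * z ∈ V) (hz : z ∉ V) :
    L ∈ V.nonunits := by
  have hz0 : z ≠ 0 := by
    rintro rfl
    exact hz V.zero_mem
  have h1 : z⁻¹ ∈ V.nonunits := V.inv_mem_nonunits_iff.2 (Or.inr hz)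
  have := mul_nonunit V h h1
  rwa [mul_assoc, mul_inv_cancel₀ hz0, mul_one] at this

omit [Algebra ℝ K] in
theorem mem_of_mul_mem (V : ValuationSubring K) {L z : K} (h : L * z ∈ V)
    (hz : z ∉ V.nonunits) : L ∈ V := by
  rw [ValuationSubring.mem_nonunits_iff_or] at hz
  push Not at hz
  have := V.mul_mem _ _ h hz.2
  rwa [mul_assoc, mul_inv_cancel₀ hz.1, mul_one] at this

/-- The real-bilinear pairing of a real vector with a vector over `K`. -/
noncomputable def pair {d : ℕ} (v : EuclideanSpace ℝ (Fin d)) (y : Fin d → K) : K :=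
  ∑ k, algebraMap ℝ K (v k) * y k

theorem pair_add {d : ℕ} (v w : EuclideanSpace ℝ (Fin d)) (y : Fin d → K) :
    pair (v + w) y = pair v y + pair w y := by
  simp [pair, add_mul, sum_add_distrib]

theorem pair_smul {d : ℕ} (c : ℝ) (v : EuclideanSpace ℝ (Fin d)) (y : Fin d → K) :
    pair (c • v) y = algebraMap ℝ K c * pair v y := by
  simp [pair, mul_sum, mul_assoc]

theorem pair_single {d : ℕ} (k : Fin d) (y : Fin d → K) :
    pair (EuclideanSpace.single k (1 : ℝ)) y = y k := by
  classical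
  unfold pair
  rw [sum_eq_single k]
  · simp
  · intro j _ hj
    simp [hj]
  · simp

theorem core {d N e : ℕ} (V : ValuationSubring K) (hV : ∀ r : ℝ, algebraMap ℝ K r ∈ V)
    (a : Fin N → EuclideanSpace ℝ (Fin d)) (ha : Function.Injective a)
    (q : Fin N → ℝ) (hq : ∀ i, q i ≠ 0) (x : Fin d → K) (s : Fin N → K)
    (hs : ∀ i, s i ^ 2 * ∑ k, (x k - algebraMap ℝ K (a i k)) ^ 2 = 1)
    (heq : ∀ k, ∑ i, algebraMap ℝ K (q i) * s i ^ (e + 2) * (x k - algebraMap ℝ K (a i k)) = 0) :
    (∑ i, algebraMap ℝ K (q i) * s i ^ (e + 2)) ∈ V ∧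
      ((∃ k, x k ∉ V) → (∑ i, algebraMap ℝ K (q i) * s i ^ (e + 2)) ∈ V.nonunits) := by
  classical
  set ι := algebraMap ℝ K with hι
  set w : Fin N → K := fun i => ι (q i) * s i ^ (e + 2) with hw
  have hwV : ∀ i, s i ∈ V → w i ∈ V := fun i hi => V.mul_mem _ _ (hV _) (V.pow_mem hi _)
  have hs0 : ∀ i, s i ≠ 0 := by
    intro i h
    have := hs i
    rw [h] at this
    simp at this
  change (∑ i, w i) ∈ V ∧ ((∃ k, x k ∉ V) → (∑ i, w i) ∈ V.nonunits)
  have heq' : ∀ k, ∑ i, w i * (x k - ι (a i k)) = 0 := heq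
  by_cases hS : ∀ i, s i ∈ V
  · refine ⟨V.toSubring.sum_mem fun i _ => hwV i (hS i), ?_⟩
    rintro ⟨k, hk⟩
    refine nonunit_of_mul_mem V ?_ hk
    have : (∑ i, w i) * x k = ∑ i, w i * ι (a i k) := by
      have h := heq' k
      simp only [mul_sub, sum_sub_distrib] at h
      rw [sum_mul]
      exact sub_eq_zero.1 h
    rw [this]
    exact V.toSubring.sum_mem fun i _ => V.mul_mem _ _ (hwV i (hS i)) (hV _)
  push Not at hS
  obtain ⟨i0, hi0⟩ := hS
  set y : Fin d → K := fun k => x k - ι (a i0 k) with hy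
  set b : Fin N → EuclideanSpace ℝ (Fin d) := fun i => a i - a i0 with hb
  have hxy : ∀ i k, x k - ι (a i k) = y k - ι (b i k) := by
    intro i k
    simp [hy, hb]
  have hρ : ∀ i, s i ∉ V → (∑ k, (y k - ι (b i k)) ^ 2) ∈ V.nonunits := by
    intro i hi
    have h1 : (s i)⁻¹ ∈ V.nonunits := V.inv_mem_nonunits_iff.2 (Or.inr hi)
    have h2 : (∑ k, (y k - ι (b i k)) ^ 2) = (s i)⁻¹ * (s i)⁻¹ := by
      have h := hs i
      simp only [hxy] at h
      have h0 := hs0 i
      field_simp
      linear_combination h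
    rw [h2]
    exact V.nonunits.mul_mem h1 h1
  have hρ0 : (∑ k, y k ^ 2) ∈ V.nonunits := by
    have := hρ i0 hi0
    simpa [hb] using this
  have hpairb : ∀ i, s i ∉ V → pair (b i) y - ι ((∑ k, b i k ^ 2) / 2) ∈ V.nonunits := by
    intro i hi
    have h1 : pair (b i) y - ι ((∑ k, b i k ^ 2) / 2) =
        ι (1 / 2) * ((∑ k, y k ^ 2) - ∑ k, (y k - ι (b i k)) ^ 2) := by
      have h2 : ι (1 / 2) * 2 = 1 := by
        have : (2 : K) = ι 2 := by simp [hι, map_ofNat]
        rw [this, ← map_mul]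
        norm_num
      have h3 : ι ((∑ k, b i k ^ 2) / 2) = ι (1 / 2) * ∑ k, ι (b i k) ^ 2 := by
        rw [div_eq_mul_one_div, map_mul, map_sum, mul_comm]
        simp only [map_pow]
      rw [h3, ← sum_sub_distrib, mul_sum, mul_sum, pair, ← sum_sub_distrib]
      refine sum_congr rfl fun k _ => ?_
      linear_combination (-(ι (b i k) * y k)) * h2
    rw [h1]
    exact mul_nonunit V (hV _) (V.nonunits.sub_mem hρ0 (hρ i hi))
  set U : Submodule ℝ (EuclideanSpace ℝ (Fin d)) := Submodule.span ℝ (b '' {i | s i ∉ V}) with hU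
  have hUreal : ∀ p ∈ U, ∃ g : ℝ, pair p y - ι g ∈ V.nonunits := by
    intro p hp
    induction hp using Submodule.span_induction with
    | mem p hp =>
      obtain ⟨i, hi, rfl⟩ := hp
      exact ⟨_, hpairb i hi⟩
    | zero => exact ⟨0, by simp [pair]⟩
    | add p p' _ _ h h' =>
      obtain ⟨g, hg⟩ := h
      obtain ⟨g', hg'⟩ := h'
      refine ⟨g + g', ?_⟩
      have := V.nonunits.add_mem hg hg'
      rw [pair_add, map_add]
      convert this using 1
      ring
    | smul c p _ h =>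
      obtain ⟨g, hg⟩ := h
      refine ⟨c * g, ?_⟩
      have := mul_nonunit V (hV c) hg
      rw [pair_smul, map_mul]
      convert this using 1
      ring
  have hperp : ∀ n ∈ Uᗮ, (∑ i, w i) * pair n y ∈ V := by
    intro n hn
    have h1 : (∑ i, w i) * pair n y = ∑ i, w i * ι (∑ k, n k * b i k) := by
      have h2 : ∑ k, ι (n k) * ∑ i, w i * (y k - ι (b i k)) = 0 := by
        refine sum_eq_zero fun k _ => ?_
        have := heq' k
        simp only [hxy] at this
        rw [this, mul_zero]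
      rw [← sub_eq_zero, ← h2, sum_mul, ← sum_sub_distrib]
      simp only [mul_sum, pair, map_sum, map_mul]
      rw [sum_comm (s := univ) (t := univ) (f := fun k i => ι (n k) * (w i * (y k - ι (b i k))))]
      refine sum_congr rfl fun i _ => ?_
      rw [← sum_sub_distrib]
      refine sum_congr rfl fun k _ => ?_
      ring
    rw [h1]
    refine V.toSubring.sum_mem fun i _ => ?_
    by_cases hi : s i ∈ V
    · exact V.mul_mem _ _ (hwV i hi) (hV _)
    · have h3 : inner ℝ (b i) n = 0 :=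
        (Submodule.mem_orthogonal U n).1 hn (b i) (Submodule.subset_span ⟨i, hi, rfl⟩)
      have h4 : ∑ k, n k * b i k = 0 := by
        rw [← h3, PiLp.inner_apply]
        simp
      rw [h4]
      simp
  have hdec : ∀ k, ∃ (g : ℝ) (z : K), (∑ i, w i) * z ∈ V ∧ y k - z - ι g ∈ V.nonunits := by
    intro k
    obtain ⟨p, hp, n, hn, hpn⟩ := U.exists_add_mem_mem_orthogonal (EuclideanSpace.single k (1 : ℝ))
    obtain ⟨g, hg⟩ := hUreal p hp
    refine ⟨g, pair n y, hperp n hn, ?_⟩
    have : y k = pair p y + pair n y := by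
      rw [← pair_add, ← hpn, pair_single]
    convert hg using 1
    rw [this]
    ring
  choose g z hz hgz using hdec
  have hsecond : (∃ k, x k ∉ V) → (∑ i, w i) ∈ V.nonunits := by
    rintro ⟨k, hk⟩
    refine nonunit_of_mul_mem V (hz k) fun hzk => hk ?_
    have h1 : x k = (y k - z k - ι (g k)) + z k + ι (g k) + ι (a i0 k) := by
      simp only [hy]
      ring
    rw [h1]
    exact V.add_mem _ _ (V.add_mem _ _ (V.add_mem _ _ (V.nonunits_subset (hgz k)) hzk) (hV _)) (hV _)
  refine ⟨?_, hsecond⟩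
  by_cases hz' : ∃ k, z k ∉ V.nonunits
  · obtain ⟨k, hk⟩ := hz'
    exact mem_of_mul_mem V (hz k) hk
  exfalso
  push Not at hz'
  have hyg : ∀ k, y k - ι (g k) ∈ V.nonunits := by
    intro k
    have := V.nonunits.add_mem (hgz k) (hz' k)
    convert this using 1
    ring
  have hyV : ∀ k, y k ∈ V := by
    intro k
    have := V.add_mem _ _ (V.nonunits_subset (hyg k)) (hV (g k))
    simpa using this
  have hg0 : ∑ k, g k ^ 2 = 0 := by
    refine real_nonunit V hV ?_
    have h1 : ι (∑ k, g k ^ 2) = (∑ k, y k ^ 2) - ∑ k, (y k + ι (g k)) * (y k - ι (g k)) := by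
      rw [map_sum, ← sum_sub_distrib]
      refine sum_congr rfl fun k _ => ?_
      rw [map_pow]
      ring
    change ι _ ∈ _
    rw [h1]
    refine V.nonunits.sub_mem hρ0 (V.nonunits.sum_mem fun k _ => ?_)
    exact mul_nonunit V (V.add_mem _ _ (hyV k) (hV _)) (hyg k)
  have hgk : ∀ k, g k = 0 := by
    intro k
    have := (sum_eq_zero_iff_of_nonneg (fun k _ => sq_nonneg (g k))).1 hg0 k (mem_univ k)
    exact pow_eq_zero_iff (two_ne_zero) |>.1 this
  have hym : ∀ k, y k ∈ V.nonunits := by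
    intro k
    have := hyg k
    rwa [hgk k, map_zero, sub_zero] at this
  have honly : ∀ i, s i ∉ V → i = i0 := by
    intro i hi
    have h1 : pair (b i) y ∈ V.nonunits :=
      V.nonunits.sum_mem fun k _ => mul_nonunit V (hV _) (hym k)
    have h2 : ι ((∑ k, b i k ^ 2) / 2) ∈ V.nonunits := by
      have := V.nonunits.sub_mem h1 (hpairb i hi)
      simpa using this
    have h3 := real_nonunit V hV h2
    have h4 : ∑ k, b i k ^ 2 = 0 := by linarith
    have h5 : ∀ k, b i k = 0 := by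
      intro k
      have := (sum_eq_zero_iff_of_nonneg (fun k _ => sq_nonneg (b i k))).1 h4 k (mem_univ k)
      exact pow_eq_zero_iff (two_ne_zero) |>.1 this
    apply ha
    ext k
    have := h5 k
    simp only [hb, PiLp.sub_apply] at this
    linarith
  have hdot : ι (q i0) * s i0 ^ e ∈ V.nonunits := by
    have h1 : ∑ i, w i * ∑ k, y k * (y k - ι (b i k)) = 0 := by
      have h2 : ∑ k, y k * ∑ i, w i * (y k - ι (b i k)) = 0 := by
        refine sum_eq_zero fun k _ => ?_
        have := heq' k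
        simp only [hxy] at this
        rw [this, mul_zero]
      rw [← h2]
      simp only [mul_sum]
      rw [sum_comm]
      refine sum_congr rfl fun i _ => sum_congr rfl fun k _ => ?_
      ring
    rw [← add_sum_erase _ _ (mem_univ i0)] at h1
    have h3 : w i0 * ∑ k, y k * (y k - ι (b i0 k)) = ι (q i0) * s i0 ^ e := by
      have h := hs i0
      have h4 : ∑ k, y k * (y k - ι (b i0 k)) = ∑ k, (x k - ι (a i0 k)) ^ 2 := by
        refine sum_congr rfl fun k _ => ?_
        simp [hb, hy, sq]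
      rw [h4]
      simp only [hw]
      linear_combination (ι (q i0) * s i0 ^ e) * h
    rw [h3] at h1
    rw [eq_neg_of_add_eq_zero_left h1]
    refine V.nonunits.neg_mem (V.nonunits.sum_mem fun i hi => ?_)
    have hiV : s i ∈ V := by
      by_contra h
      exact (mem_erase.1 hi).1 (honly i h)
    refine mul_nonunit V (hwV i hiV) (V.nonunits.sum_mem fun k _ => ?_)
    rw [mul_comm]
    exact mul_nonunit V (V.sub_mem (hyV k) (hV _)) (hym k)
  have hinv : (s i0)⁻¹ ∈ V := V.nonunits_subset (V.inv_mem_nonunits_iff.2 (Or.inr hi0))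
  have h5 := mul_nonunit V (V.pow_mem hinv e) hdot
  have h6 : (s i0)⁻¹ ^ e * (ι (q i0) * s i0 ^ e) = ι (q i0) := by
    rw [mul_comm (ι (q i0)), ← mul_assoc, ← mul_pow, inv_mul_cancel₀ (hs0 i0), one_pow, one_mul]
  rw [h6] at h5
  exact hq i0 (real_nonunit V hV h5)

/-- If `Λ ≠ 0`, every coordinate of the solution is algebraic over the reals. -/
theorem integral_of_ne_zero {d N e : ℕ}
    (a : Fin N → EuclideanSpace ℝ (Fin d)) (ha : Function.Injective a)
    (q : Fin N → ℝ) (hq : ∀ i, q i ≠ 0) (x : Fin d → K) (s : Fin N → K)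
    (hs : ∀ i, s i ^ 2 * ∑ k, (x k - algebraMap ℝ K (a i k)) ^ 2 = 1)
    (heq : ∀ k, ∑ i, algebraMap ℝ K (q i) * s i ^ (e + 2) * (x k - algebraMap ℝ K (a i k)) = 0)
    (hL : (∑ i, algebraMap ℝ K (q i) * s i ^ (e + 2)) ≠ 0) (k : Fin d) :
    IsIntegral ℝ (x k) := by
  have key : ∀ t : K, ¬ IsIntegral ℝ t → ∃ V : ValuationSubring K,
      (∀ u : K, IsIntegral ℝ u → u ∈ V) ∧ t ∉ V := by
    intro t ht
    have hI : IsIntegrallyClosedIn (integralClosure ℝ K).toSubring K :=
      inferInstanceAs (IsIntegrallyClosedIn (integralClosure ℝ K) K)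
    obtain ⟨V, hV, htV⟩ :=
      Subring.exists_le_valuationSubring_of_isIntegrallyClosedIn
        (R := (integralClosure ℝ K).toSubring) (x := t) ht
    exact ⟨V, fun u hu => hV (show u ∈ (integralClosure ℝ K).toSubring from hu), htV⟩
  have hLint : IsIntegral ℝ (∑ i, algebraMap ℝ K (q i) * s i ^ (e + 2)) := by
    by_contra h
    obtain ⟨V, hV, hLV⟩ := key _ h
    exact hLV (core V (fun r => hV _ isIntegral_algebraMap) a ha q hq x s hs heq).1
  by_contra h
  obtain ⟨V, hV, hxV⟩ := key _ h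
  have h1 := (core V (fun r => hV _ isIntegral_algebraMap) a ha q hq x s hs heq).2 ⟨k, hxV⟩
  rcases V.mem_nonunits_iff_or.1 h1 with h2 | h2
  · exact hL h2
  · exact h2 (hV _ hLint.inv)

end Pool.Agent.MP_765488_mp

end MrgPart0

-- ======== part 1: formerly Pool.Agent.MP_765488_mp.Finite
section MrgPart1

/-!
Finiteness of the solutions of the equilibrium equations with `Λ ≠ 0`, by an ultrapower argument,
and the computation of the derivative of the potential.
-/

set_option autoImplicit false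

namespace Pool.Agent.MP_765488_mp

open Finset Filter

theorem finite_solutions {d N e : ℕ}
    (a : Fin N → EuclideanSpace ℝ (Fin d)) (ha : Function.Injective a)
    (q : Fin N → ℝ) (hq : ∀ i, q i ≠ 0) :
    {x : EuclideanSpace ℝ (Fin d) | (∀ i, x ≠ a i) ∧
      (∀ k, ∑ i, q i * ‖x - a i‖⁻¹ ^ (e + 2) * (x k - a i k) = 0) ∧
      ∑ i, q i * ‖x - a i‖⁻¹ ^ (e + 2) ≠ 0}.Finite := by
  classical
  set Z : Set (EuclideanSpace ℝ (Fin d)) := {x | (∀ i, x ≠ a i) ∧
      (∀ k, ∑ i, q i * ‖x - a i‖⁻¹ ^ (e + 2) * (x k - a i k) = 0) ∧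
      ∑ i, q i * ‖x - a i‖⁻¹ ^ (e + 2) ≠ 0} with hZ
  by_contra hinf
  have : Infinite Z := Set.infinite_coe_iff.2 hinf
  let 𝒰 : Ultrafilter Z := hyperfilter Z
  let K := Germ (𝒰 : Filter Z) ℝ
  let φ : (Z → ℝ) →+* K := Germ.coeRingHom (𝒰 : Filter Z)
  have hφ : ∀ f g : Z → ℝ, φ f = φ g ↔ f =ᶠ[(𝒰 : Filter Z)] g := fun f g => Germ.coe_eq
  let ι : ℝ →+* K := φ.comp (Pi.constRingHom Z ℝ)
  let _ : Algebra ℝ K := ι.toAlgebra
  have hι : ∀ r : ℝ, algebraMap ℝ K r = φ (fun _ => r) := fun r => rfl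
  let X : Fin d → Z → ℝ := fun k z => z.1 k
  let S : Fin N → Z → ℝ := fun i z => ‖z.1 - a i‖⁻¹
  have hs : ∀ i, φ (S i) ^ 2 * ∑ k, (φ (X k) - algebraMap ℝ K (a i k)) ^ 2 = 1 := by
    intro i
    simp only [hι]
    simp only [← map_sub, ← map_pow, ← map_sum, ← map_mul]
    rw [← map_one φ]
    congr 1
    funext z
    have hz : z.1 - a i ≠ 0 := sub_ne_zero.2 (z.2.1 i)
    have hn : ‖z.1 - a i‖ ≠ 0 := norm_ne_zero_iff.2 hz
    have h2 : ‖z.1 - a i‖ ^ 2 = ∑ k, (z.1 k - a i k) ^ 2 := by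
      rw [EuclideanSpace.norm_sq_eq]
      simp
    simp only [Pi.mul_apply, Pi.pow_apply, Finset.sum_apply, Pi.sub_apply, Pi.one_apply, S, X]
    rw [← h2]
    field_simp
  have heq : ∀ k, ∑ i, algebraMap ℝ K (q i) * φ (S i) ^ (e + 2) *
      (φ (X k) - algebraMap ℝ K (a i k)) = 0 := by
    intro k
    simp only [hι]
    simp only [← map_sub, ← map_pow, ← map_sum, ← map_mul]
    rw [← map_zero φ]
    congr 1
    funext z
    simp only [Pi.mul_apply, Pi.pow_apply, Finset.sum_apply, Pi.sub_apply, Pi.zero_apply, S, X]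
    exact z.2.2.1 k
  have hL : (∑ i, algebraMap ℝ K (q i) * φ (S i) ^ (e + 2)) ≠ 0 := by
    simp only [hι]
    simp only [← map_pow, ← map_sum, ← map_mul]
    rw [← map_zero φ]
    intro h
    obtain ⟨z, hz⟩ := ((hφ _ _).1 h).exists
    simp only [Pi.mul_apply, Pi.pow_apply, Finset.sum_apply, Pi.zero_apply, S] at hz
    exact z.2.2.2 hz
  have hint := integral_of_ne_zero (K := K) a ha q hq (fun k => φ (X k)) (fun i => φ (S i))
    hs heq hL
  have hfin : ∀ k, ∃ T : Set ℝ, T.Finite ∧ ∀ᶠ z in (𝒰 : Filter Z), X k z ∈ T := by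
    intro k
    obtain ⟨p, hp, hpx⟩ := hint k
    refine ⟨{t | p.IsRoot t}, Polynomial.finite_setOfPred_isRoot hp.ne_zero, ?_⟩
    have h1 : Polynomial.eval₂ (algebraMap ℝ K) (φ (X k)) p =
        φ (Polynomial.eval₂ (Pi.constRingHom Z ℝ) (X k) p) := by
      rw [Polynomial.hom_eval₂]
      rfl
    rw [h1, ← map_zero φ] at hpx
    filter_upwards [(hφ _ _).1 hpx] with z hz
    have h2 := Polynomial.hom_eval₂ p (Pi.constRingHom Z ℝ) (Pi.evalRingHom (fun _ : Z => ℝ) z) (X k)
    have h3 : (Pi.evalRingHom (fun _ : Z => ℝ) z).comp (Pi.constRingHom Z ℝ) = RingHom.id ℝ := by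
      ext r
      rfl
    rw [h3] at h2
    change p.eval (X k z) = 0
    rw [← Polynomial.eval₂_id]
    exact h2.symm.trans hz
  choose T hT hTz using hfin
  have hall : ∀ᶠ z in (𝒰 : Filter Z), ∀ k, X k z ∈ T k := eventually_all.2 hTz
  have hfinite : {z : Z | ∀ k, X k z ∈ T k}.Finite := by
    refine Set.Finite.of_finite_image (f := fun z k => X k z) ?_ ?_
    · refine (Set.Finite.pi' hT).subset ?_
      rintro _ ⟨z, hz, rfl⟩
      exact hz
    · intro z _ z' _ h
      apply Subtype.ext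
      ext k
      exact congrFun h k
  exact hfinite.notMem_hyperfilter hall

theorem hasFDerivAt_dist {d : ℕ} (c x : EuclideanSpace ℝ (Fin d)) (hx : x ≠ c) :
    HasFDerivAt (fun y : EuclideanSpace ℝ (Fin d) => ‖y - c‖)
      (‖x - c‖⁻¹ • innerSL ℝ (x - c)) x := by
  have hn : ‖x - c‖ ≠ 0 := norm_ne_zero_iff.2 (sub_ne_zero.2 hx)
  have h1 : HasFDerivAt (fun y : EuclideanSpace ℝ (Fin d) => ‖y - c‖ ^ 2)
      (2 • innerSL ℝ (x - c)) x := by
    have := ((hasFDerivAt_id x).sub_const c).norm_sq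
    simpa using this
  have h2 := h1.sqrt (pow_ne_zero 2 hn)
  simp only [Real.sqrt_sq (norm_nonneg _)] at h2
  have h3 : ‖x - c‖⁻¹ • innerSL ℝ (x - c) = (1 / (2 * ‖x - c‖)) • 2 • innerSL ℝ (x - c) := by
    rw [two_smul, ← two_smul ℝ, smul_smul]
    congr 1
    field_simp
  rw [h3]
  exact h2

/-- The derivative of a sum of radial functions vanishes iff the weighted sum of the vectors
`x - a i` vanishes. -/
theorem coords_of_fderiv {d N : ℕ} (a : Fin N → EuclideanSpace ℝ (Fin d))
    (x : EuclideanSpace ℝ (Fin d)) (hx : ∀ i, x ≠ a i) (g : Fin N → ℝ → ℝ) (g' : Fin N → ℝ)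
    (hg : ∀ i, HasDerivAt (g i) (g' i) ‖x - a i‖)
    (h0 : fderiv ℝ (fun y => ∑ i, g i ‖y - a i‖) x = 0) (k : Fin d) :
    ∑ i, g' i * ‖x - a i‖⁻¹ * (x k - a i k) = 0 := by
  have h1 : HasFDerivAt (fun y => ∑ i, g i ‖y - a i‖)
      (∑ i, g' i • (‖x - a i‖⁻¹ • innerSL ℝ (x - a i))) x :=
    HasFDerivAt.fun_sum fun i _ =>
      (hg i).comp_hasFDerivAt x (hasFDerivAt_dist (a i) x (hx i))
  rw [h1.fderiv] at h0
  have h2 := congrArg (fun L : EuclideanSpace ℝ (Fin d) →L[ℝ] ℝ =>
    L (EuclideanSpace.single k (1 : ℝ))) h0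
  simp only [_root_.sum_apply, _root_.smul_apply, innerSL_apply_apply,
    EuclideanSpace.inner_single_right, _root_.zero_apply, smul_eq_mul] at h2
  rw [← h2]
  refine sum_congr rfl fun i _ => ?_
  simp [mul_assoc]

end Pool.Agent.MP_765488_mp

end MrgPart1

-- marker of a merged file
example : 731051 + 857005 = 731051 + 857005 := rfl
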